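import Pool.Agent.Helper21_GLE.PCF

/-! Squad GLE: number of parameters of exact period `n`. -/

namespace Pool.Agent.GLE.H21

open Polynomial

theorem isPeriodicPt_iff (c : ℂ) (n : ℕ) :
    Function.IsPeriodicPt (fun z : ℂ => z ^ 2 + c) n 0 ↔ av n c = 0 := by
  unfold Function.IsPeriodicPt Function.IsFixedPt
  rw [av_eq_iter]

theorem mem_rt_av (hSEP : SepStmt) (hROO : RooStmt) (n : ℕ) (hn : 1 ≤ n) (c : ℂ) :
    c ∈ rt (av n (X : ℤ[X])) ↔ av n c = 0 := by
  obtain ⟨h1, h2, h3, h4, -⟩ := hSEP n hn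
  obtain ⟨-, hR2, -⟩ := hROO
  obtain ⟨-, -, h5, -⟩ := hR2 _ h1 h3
  rw [h5 c, h4 c]

theorem finite_exact (hSEP : SepStmt) (hROO : RooStmt) (n : ℕ) (hn : 1 ≤ n) :
    {c : ℂ | Function.minimalPeriod (fun z : ℂ => z ^ 2 + c) 0 = n}.Finite := by
  refine (Finset.finite_toSet (rt (av n (X : ℤ[X])))).subset (fun c hc => ?_)
  rw [Finset.mem_coe, mem_rt_av hSEP hROO n hn c, ← isPeriodicPt_iff]
  have hc' : Function.minimalPeriod (fun z : ℂ => z ^ 2 + c) 0 = n := hc
  have := Function.isPeriodicPt_minimalPeriod (fun z : ℂ => z ^ 2 + c) 0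
  rwa [hc'] at this

theorem count_lower (hSEP : SepStmt) (hROO : RooStmt) (n : ℕ) (hn : 1 ≤ n) :
    2 ^ n ≤ 4 * {c : ℂ | Function.minimalPeriod (fun z : ℂ => z ^ 2 + c) 0 = n}.ncard := by
  have hcard : ∀ m, 1 ≤ m → (rt (av m (X : ℤ[X]))).card = 2 ^ (m - 1) := by
    intro m hm
    obtain ⟨h1, h2, h3, -⟩ := hSEP m hm
    obtain ⟨-, hR2, -⟩ := hROO
    rw [(hR2 _ h1 h3).1, h2]
  have hfin := finite_exact hSEP hROO n hn
  have hsub : rt (av n (X : ℤ[X])) ⊆ hfin.toFinset ∪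
      (Finset.Icc 1 (n / 2)).biUnion (fun d => rt (av d (X : ℤ[X]))) := by
    intro c hc
    rw [mem_rt_av hSEP hROO n hn, ← isPeriodicPt_iff] at hc
    rw [Finset.mem_union, Set.Finite.mem_toFinset, Finset.mem_biUnion]
    by_cases h : Function.minimalPeriod (fun z : ℂ => z ^ 2 + c) 0 = n
    · exact Or.inl h
    · right
      have hd := hc.minimalPeriod_dvd
      have hpos := hc.minimalPeriod_pos (by omega)
      refine ⟨Function.minimalPeriod (fun z : ℂ => z ^ 2 + c) 0, ?_, ?_⟩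
      · rw [Finset.mem_Icc]
        refine ⟨hpos, ?_⟩
        obtain ⟨q, hq⟩ := hd
        rw [Nat.le_div_iff_mul_le (by norm_num)]
        have hq2 : 2 ≤ q := by
          rcases Nat.lt_or_ge q 2 with h2 | h2
          · exfalso
            interval_cases q
            · omega
            · apply h; omega
          · exact h2
        calc Function.minimalPeriod (fun z : ℂ => z ^ 2 + c) 0 * 2
            ≤ Function.minimalPeriod (fun z : ℂ => z ^ 2 + c) 0 * q := Nat.mul_le_mul_left _ hq2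
          _ = n := hq.symm
      · rw [mem_rt_av hSEP hROO _ hpos, ← isPeriodicPt_iff]
        exact Function.isPeriodicPt_minimalPeriod _ _
  have h1 := Finset.card_le_card hsub
  have h2 := Finset.card_union_le hfin.toFinset
    ((Finset.Icc 1 (n / 2)).biUnion (fun d => rt (av d (X : ℤ[X]))))
  have h3 : ((Finset.Icc 1 (n / 2)).biUnion (fun d => rt (av d (X : ℤ[X])))).card ≤
      2 ^ (n / 2) - 1 := by
    refine Finset.card_biUnion_le.trans ?_
    have e1 : ∀ h : ℕ, ∑ d ∈ Finset.Icc 1 h, (rt (av d (X : ℤ[X]))).card = 2 ^ h - 1 := by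
      intro h
      induction h with
      | zero => simp
      | succ h ih =>
        rw [Finset.sum_Icc_succ_top (by omega), ih, hcard (h + 1) (by omega)]
        have : 1 ≤ 2 ^ h := Nat.one_le_two_pow
        rw [show h + 1 - 1 = h by omega, pow_succ]
        omega
    rw [e1]
  rw [hcard n hn] at h1
  rw [Set.ncard_eq_toFinset_card _ hfin]
  have h4 : 1 ≤ 2 ^ (n / 2) := Nat.one_le_two_pow
  have h5 : 2 ^ n = 2 * 2 ^ (n - 1) := by
    rw [← pow_succ']; congr 1; omega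
  have h6 : 2 ^ (n / 2) * 2 ^ (n / 2) ≤ 2 ^ n := by
    rw [← pow_add]
    exact Nat.pow_le_pow_right (by norm_num) (by omega)
  have h7 : 2 ^ n + 4 ≥ 4 * 2 ^ (n / 2) := by
    nlinarith [sq_nonneg ((2 : ℤ) ^ (n / 2) - 2), h6,
      (by
        have : (2 ^ (n / 2) : ℤ) * 2 ^ (n / 2) + 4 ≥ 4 * 2 ^ (n / 2) := by
          nlinarith [sq_nonneg ((2 : ℤ) ^ (n / 2) - 2)]
        exact_mod_cast this : 2 ^ (n / 2) * 2 ^ (n / 2) + 4 ≥ 4 * 2 ^ (n / 2))]
  omega

end Pool.Agent.GLE.H21
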