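import Pool.Agent.Helper21_GLE.Count

/-! Squad GLE: the final statement from the statements of the squad. -/

namespace Pool.Agent.GLE.H21

open Polynomial

theorem final (hFIN : FinStmt) (hCEN : CenStmt) (hSEP : SepStmt) (hROO : RooStmt) :
    ∀ ε : ℝ, 0 < ε → ∃ C : ℝ, 0 < C ∧
    (∀ D : ℕ, 1 ≤ D →
      {p : ℚ[X] | ∃ c : ℂ, (Set.range (fun n : ℕ => (fun z : ℂ => z ^ 2 + c)^[n] 0)).Finite ∧
        p = minpoly ℚ c ∧ p.natDegree ≤ D}.Finite ∧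
      ({p : ℚ[X] | ∃ c : ℂ, (Set.range (fun n : ℕ => (fun z : ℂ => z ^ 2 + c)^[n] 0)).Finite ∧
        p = minpoly ℚ c ∧ p.natDegree ≤ D}.ncard : ℝ) ≤ C * (D : ℝ) ^ (1 + ε)) ∧
    (∀ D : ℕ, 1 ≤ D →
      {c : ℂ | (Set.range (fun n : ℕ => (fun z : ℂ => z ^ 2 + c)^[n] 0)).Finite ∧
        (minpoly ℚ c).natDegree ≤ D}.Finite ∧
      ({c : ℂ | (Set.range (fun n : ℕ => (fun z : ℂ => z ^ 2 + c)^[n] 0)).Finite ∧
        (minpoly ℚ c).natDegree ≤ D}.ncard : ℝ) ≤ C * (D : ℝ) ^ (2 + ε)) ∧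
    (∀ n : ℕ, 1 ≤ n →
      {p : ℚ[X] | ∃ c : ℂ, Function.minimalPeriod (fun z : ℂ => z ^ 2 + c) 0 = n ∧
        p = minpoly ℚ c}.Finite ∧
      ({p : ℚ[X] | ∃ c : ℂ, Function.minimalPeriod (fun z : ℂ => z ^ 2 + c) 0 = n ∧
        p = minpoly ℚ c}.ncard : ℝ) ≤ C * (2 : ℝ) ^ ((1 / 2 + ε) * n)) ∧
    (ε < 1 / 2 → ∀ n : ℕ, 1 ≤ n →
      {c : ℂ | Function.minimalPeriod (fun z : ℂ => z ^ 2 + c) 0 = n}.Finite ∧
      ({c : ℂ | Function.minimalPeriod (fun z : ℂ => z ^ 2 + c) 0 = n ∧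
        ((minpoly ℚ c).natDegree : ℝ) ≤ (2 : ℝ) ^ ((1 / 2 - ε) * n)}.ncard : ℝ) ≤
          C * (2 : ℝ) ^ (-(ε * n)) *
            {c : ℂ | Function.minimalPeriod (fun z : ℂ => z ^ 2 + c) 0 = n}.ncard) := by
  intro ε hε
  obtain ⟨C1, hC1, hP⟩ := pcf hFIN ε hε
  obtain ⟨C2, hC2, -, -, h3, h4⟩ := hCEN ε hε
  refine ⟨C1 + 4 * C2, by positivity, ?_, ?_, ?_, ?_⟩
  · intro D hD
    obtain ⟨⟨h5, h6⟩, -⟩ := hP D hD
    refine ⟨h5, h6.trans ?_⟩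
    have : (0 : ℝ) ≤ (D : ℝ) ^ (1 + ε) := by positivity
    nlinarith
  · intro D hD
    obtain ⟨-, h5, h6⟩ := hP D hD
    refine ⟨h5, h6.trans ?_⟩
    have : (0 : ℝ) ≤ (D : ℝ) ^ (2 + ε) := by positivity
    nlinarith
  · intro n hn
    refine ⟨?_, (h3 n hn).trans ?_⟩
    · refine ((finite_exact hSEP hROO n hn).image (fun c => minpoly ℚ c)).subset ?_
      rintro p ⟨c, hc, hp⟩
      exact ⟨c, hc, hp.symm⟩
    · have : (0 : ℝ) ≤ (2 : ℝ) ^ ((1 / 2 + ε) * n) := by positivity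
      nlinarith
  · intro hlt n hn
    refine ⟨finite_exact hSEP hROO n hn, (h4 hlt n hn).trans ?_⟩
    have h5 := count_lower hSEP hROO n hn
    have h6 : (2 : ℝ) ^ n ≤
        4 * {c : ℂ | Function.minimalPeriod (fun z : ℂ => z ^ 2 + c) 0 = n}.ncard := by
      exact_mod_cast h5
    have h7 : (2 : ℝ) ^ ((1 - ε) * n) = (2 : ℝ) ^ (-(ε * n)) * (2 : ℝ) ^ n := by
      rw [← Real.rpow_natCast (2 : ℝ) n, ← Real.rpow_add (by norm_num)]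
      congr 1
      ring
    have h8 : (0 : ℝ) < (2 : ℝ) ^ (-(ε * n)) := by positivity
    have h9 : (0 : ℝ) ≤ ({c : ℂ | Function.minimalPeriod (fun z : ℂ => z ^ 2 + c) 0 = n}.ncard : ℝ) :=
      Nat.cast_nonneg _
    rw [h7]
    calc C2 * ((2 : ℝ) ^ (-(ε * n)) * (2 : ℝ) ^ n)
        ≤ C2 * ((2 : ℝ) ^ (-(ε * n)) *
          (4 * {c : ℂ | Function.minimalPeriod (fun z : ℂ => z ^ 2 + c) 0 = n}.ncard)) := by
          gcongr
      _ = (4 * C2) * (2 : ℝ) ^ (-(ε * n)) *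
          {c : ℂ | Function.minimalPeriod (fun z : ℂ => z ^ 2 + c) 0 = n}.ncard := by ring
      _ ≤ (C1 + 4 * C2) * (2 : ℝ) ^ (-(ε * n)) *
          {c : ℂ | Function.minimalPeriod (fun z : ℂ => z ^ 2 + c) 0 = n}.ncard := by
          gcongr
          linarith

end Pool.Agent.GLE.H21
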