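import Pool.Agent.GLE.StmtsA
import Pool.Agent.GLE.StmtsC

/-! Squad GLE, row INE: the main inequality. -/

namespace Pool.Agent.GLE.H21

open Polynomial MeasureTheory Filter Topology

theorem pair_int (S Z : Finset ℂ) (q ε : ℝ) (G : ℂ → ℂ) (h : ℂ → ℝ)
    (hS : ∀ a ∈ S, Integrable (fun z => ((starRingEnd ℂ) (Vg ε (z - a)) * G z).re) ∧
      ∫ z, ((starRingEnd ℂ) (Vg ε (z - a)) * G z).re = -(2 * Real.pi) * h a)
    (hZ : ∀ a ∈ Z, Integrable (fun z => ((starRingEnd ℂ) (Vg ε (z - a)) * G z).re) ∧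
      ∫ z, ((starRingEnd ℂ) (Vg ε (z - a)) * G z).re = -(2 * Real.pi) * h a) :
    ∫ z : ℂ, ((starRingEnd ℂ) (((1 / (2 * Real.pi) : ℝ) : ℂ) *
      ((∑ a ∈ S, Vg ε (z - a)) - (q : ℂ) * ∑ b ∈ Z, Vg ε (z - b))) * (-G z)).re =
      ∑ a ∈ S, h a - q * ∑ b ∈ Z, h b := by
  have hpt : ∀ z : ℂ, ((starRingEnd ℂ) (((1 / (2 * Real.pi) : ℝ) : ℂ) *
      ((∑ a ∈ S, Vg ε (z - a)) - (q : ℂ) * ∑ b ∈ Z, Vg ε (z - b))) * (-G z)).re =
      -(1 / (2 * Real.pi)) * (∑ a ∈ S, ((starRingEnd ℂ) (Vg ε (z - a)) * G z).re -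
        q * ∑ b ∈ Z, ((starRingEnd ℂ) (Vg ε (z - b)) * G z).re) := by
    intro z
    have e1 : (starRingEnd ℂ) (((1 / (2 * Real.pi) : ℝ) : ℂ) *
      ((∑ a ∈ S, Vg ε (z - a)) - (q : ℂ) * ∑ b ∈ Z, Vg ε (z - b))) * (-G z) =
      ((-(1 / (2 * Real.pi)) : ℝ) : ℂ) * (∑ a ∈ S, (starRingEnd ℂ) (Vg ε (z - a)) * G z -
        (q : ℂ) * ∑ b ∈ Z, (starRingEnd ℂ) (Vg ε (z - b)) * G z) := by
      rw [map_mul, map_sub, map_mul, map_sum, map_sum, Complex.conj_ofReal, Complex.conj_ofReal,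
        ← Finset.sum_mul, ← Finset.sum_mul]
      push_cast
      ring
    rw [e1, Complex.re_ofReal_mul, Complex.sub_re, Complex.re_ofReal_mul, Complex.re_sum,
      Complex.re_sum]
  have hi1 : Integrable (fun z : ℂ => ∑ a ∈ S, ((starRingEnd ℂ) (Vg ε (z - a)) * G z).re) :=
    integrable_finsetSum _ (fun a ha => (hS a ha).1)
  have hi2 : Integrable (fun z : ℂ => ∑ a ∈ Z, ((starRingEnd ℂ) (Vg ε (z - a)) * G z).re) :=
    integrable_finsetSum _ (fun a ha => (hZ a ha).1)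
  simp_rw [hpt]
  rw [integral_const_mul, integral_sub hi1 (hi2.const_mul q), integral_const_mul,
    integral_finsetSum _ (fun a ha => (hS a ha).1), integral_finsetSum _ (fun a ha => (hZ a ha).1),
    Finset.sum_congr rfl (fun a ha => (hS a ha).2), Finset.sum_congr rfl (fun a ha => (hZ a ha).2),
    ← Finset.mul_sum, ← Finset.mul_sum]
  have hpi : Real.pi ≠ 0 := Real.pi_ne_zero
  field_simp
  ring

theorem ine (hPIV : PivStmt) (hHAL : HalStmt) (hENB : EnbStmt) (hPRG : PrgStmt) (hMON : MonStmt)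
    (hSEP : SepStmt) (hROO : RooStmt) : IneStmt := by
  intro b D J0 r g hb hD hg hN
  obtain ⟨hm, hirr, hinj, hdeg, hM⟩ := hg
  obtain ⟨κ, hκmono, hκ0, hκQ, hκP⟩ := hPIV r g hm hirr hinj
  obtain ⟨hR1, hR2, -⟩ := hROO
  have hM1 : 1 + b * J0 - 1 = b * J0 := by omega
  set M : ℕ := 1 + b * J0 with hMdef
  have hM0 : 1 ≤ M := by omega
  -- sizes
  have hsum : ∑ i, (g i).natDegree ≤ (r + 1) * D := by
    calc ∑ i, (g i).natDegree ≤ ∑ _i : Fin (r + 1), D := Finset.sum_le_sum (fun i _ => hdeg i)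
      _ = (r + 1) * D := by simp
  have hκN : ∀ j, κ j < 2 ^ (b * J0) := by
    intro j
    have := hκmono.monotone (Fin.le_last j)
    omega
  have hκpos : ∀ j : Fin (r + 1), j ≠ 0 → 1 ≤ κ j := by
    intro j hj
    have h1 : (0 : Fin (r + 1)) < j := Fin.pos_iff_ne_zero.mpr hj
    have := hκmono h1
    omega
  have hdN : ∀ i, (g i).natDegree ≤ 2 ^ (M - 1) := by
    intro i
    rw [hM1]
    refine (hdeg i).trans (le_trans ?_ hN)
    nlinarith [Nat.zero_le r]
  -- the roots of `av M X`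
  obtain ⟨hs1, hs2, hs3, hs4, -, -, -, -, -, -, -, hs5⟩ := hSEP M hM0
  obtain ⟨hZc, -⟩ := hR2 _ hs1 hs3
  rw [hs2] at hZc
  set Z := rt (av M (X : ℤ[X])) with hZdef
  set ε : ℝ := (1 / 5 : ℝ) ^ M / 2 with hε
  have hε0 : 0 < ε := by positivity
  -- degrees and cardinals
  have hScard : ∀ i, (rt (g i)).card = (g i).natDegree := fun i =>
    (hR2 _ (hm i) (hR1 _ (hm i) (hirr i)).1).1
  set μ : Fin (r + 1) → ℝ := fun j => (∑ z ∈ Z, (aeval z (Pk b (X : ℝ[X]) (κ j))).re) /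
    2 ^ (M - 1) with hμ
  set P : Fin (r + 1) → ℝ[X] := fun j =>
    if j = 0 then 1 else Pk b (X : ℝ[X]) (κ j) - C (μ j) with hP
  have hPm : ∀ j, (P j).Monic ∧ (P j).natDegree = κ j := by
    intro j
    by_cases hj : j = 0
    · simp only [hP, hj, if_true]
      exact ⟨monic_one, by rw [natDegree_one, hκ0]⟩
    · simp only [hP, hj, if_false]
      obtain ⟨h1, h2, -⟩ := hMON b (κ j) hb
      refine ⟨?_, ?_⟩
      · refine h1.sub_of_left ?_
        refine lt_of_le_of_lt degree_C_le ?_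
        rw [degree_eq_natDegree h1.ne_zero, h2]
        exact_mod_cast hκpos j hj
      · rw [natDegree_sub_C, h2]
  have hdet := hκP P (fun j => (hPm j).1) (fun j => (hPm j).2)
  -- the two systems of vectors
  set lev : Fin (r + 1) → ℕ := fun j => 1 + b * (Nat.log (2 ^ b) (κ j) + 1) with hlev
  have hph : ∀ j, ph b (κ j) = fun z => (aeval z (Pk b (X : ℝ[X]) (κ j))).re * Th (lev j) z := by
    intro j
    funext z
    rw [(hMON b (κ j) hb).2.2 z]
    rfl
  have hlevM : ∀ j, j ≠ 0 → lev j ≤ M := by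
    intro j hj
    have h1 : κ j < (2 ^ b) ^ J0 := by rw [← pow_mul]; exact hκN j
    have h2 : Nat.log (2 ^ b) (κ j) < J0 := by
      refine Nat.log_lt_of_lt_pow (by have := hκpos j hj; omega) h1
    have h3 : b * (Nat.log (2 ^ b) (κ j) + 1) ≤ b * J0 := Nat.mul_le_mul_left b h2
    simp only [hlev, hMdef]
    omega
  have hlev1 : ∀ j, 1 ≤ lev j := fun j => by simp only [hlev]; omega
  have hεlev : ∀ j, j ≠ 0 → ε ≤ (1 / 5 : ℝ) ^ (lev j) := by
    intro j hj
    have h1 : (1 / 5 : ℝ) ^ M ≤ (1 / 5 : ℝ) ^ (lev j) :=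
      pow_le_pow_of_le_one (by norm_num) (by norm_num) (hlevM j hj)
    have h2 : (0 : ℝ) < (1 / 5 : ℝ) ^ M := by positivity
    rw [hε]; linarith
  set Y : Fin (r + 1) → ℂ → ℂ := fun i z => (∑ a ∈ rt (g i), Vg ε (z - a)) -
    (((g i).natDegree : ℂ) / 2 ^ (M - 1)) * ∑ b ∈ Z, Vg ε (z - b) with hY
  have hYe : ∀ i, MemLp (Y i) 2 volume ∧ ∫ z, ‖Y i z‖ ^ 2 ≤ 44 * (g i).natDegree * M := by
    intro i
    exact hENB M (g i) hM0 (hm i) (hirr i) (hM i) (hdN i)
  set u : Fin (r + 1) → ℂ → ℂ := fun j => if j = 0 then 0 else fun z => -grad (ph b (κ j)) z with hu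
  set s : Fin (r + 1) → ℝ := fun j => if j = 0 then Real.sqrt D else 0 with hs
  set v : Fin (r + 1) → ℂ → ℂ := fun i z => ((1 / (2 * Real.pi) : ℝ) : ℂ) * Y i z with hv
  set t : Fin (r + 1) → ℝ := fun i => ((g i).natDegree : ℝ) / Real.sqrt D with ht
  have huL : ∀ j, MemLp (u j) 2 volume := by
    intro j
    by_cases hj : j = 0
    · simp only [hu, hj, if_true]
      exact MemLp.zero
    · simp only [hu, hj, if_false]
      rw [hph j]
      exact (hPRG (lev j) (Pk b (X : ℝ[X]) (κ j)) (hlev1 j)).1.neg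
  have hvL : ∀ i, MemLp (v i) 2 volume := fun i => (hYe i).1.const_mul _
  have hD0 : (0 : ℝ) < D := by exact_mod_cast hD
  have hsq : 0 < Real.sqrt D := Real.sqrt_pos.mpr hD0
  have hsq2 : Real.sqrt D ^ 2 = D := Real.sq_sqrt hD0.le
  have key := hHAL (r + 1) u v s t huL hvL
  have hent : (Matrix.of fun j i : Fin (r + 1) =>
      (∫ z, ((starRingEnd ℂ) (v i z) * u j z).re) + s j * t i) =
      Matrix.of fun (j i : Fin (r + 1)) => ∑ z ∈ rt (g i), (aeval z (P j)).re := by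
    funext j i
    simp only [Matrix.of_apply]
    by_cases hj : j = 0
    · simp only [hu, hs, hP, hj, if_true, ht]
      simp only [Pi.zero_apply, mul_zero, Complex.zero_re, integral_zero, map_one, Complex.one_re,
        Finset.sum_const, hScard i, zero_add, nsmul_eq_mul, mul_one]
      field_simp
    · simp only [hu, hs, hP, hj, if_false, zero_mul, add_zero]
      have hpr := (hPRG (lev j) (Pk b (X : ℝ[X]) (κ j)) (hlev1 j)).2
      have hq : (((g i).natDegree : ℂ) / 2 ^ (M - 1)) =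
          ((((g i).natDegree : ℝ) / 2 ^ (M - 1) : ℝ) : ℂ) := by push_cast; rfl
      have h1 := pair_int (rt (g i)) Z (((g i).natDegree : ℝ) / 2 ^ (M - 1)) ε
        (grad (ph b (κ j))) (fun a => (aeval a (Pk b (X : ℝ[X]) (κ j))).re)
        (fun a ha => by
          rw [hph j]
          exact hpr a ε (hM i a ha) hε0 (hεlev j hj))
        (fun a ha => by
          rw [hph j]
          exact hpr a ε (hs5 a ha) hε0 (hεlev j hj))
      rw [← hq] at h1
      simp only [hv, hY]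
      rw [h1]
      have h2 : ∀ z : ℂ, (aeval z (Pk b (X : ℝ[X]) (κ j) - C (μ j))).re =
          (aeval z (Pk b (X : ℝ[X]) (κ j))).re - μ j := by
        intro z
        rw [map_sub, aeval_C, Complex.sub_re]
        simp
      simp_rw [h2]
      rw [Finset.sum_sub_distrib, Finset.sum_const, hScard i, nsmul_eq_mul]
      simp only [hμ]
      ring
  rw [hent] at key
  -- first product
  have hp1 : ∏ j, ((∫ z, ‖u j z‖ ^ 2) + s j ^ 2) = D * ∏ j : Fin r, tau b (κ j.succ) := by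
    rw [Fin.prod_univ_succ]
    have h0 : (∫ z, ‖u 0 z‖ ^ 2) + s 0 ^ 2 = D := by
      simp only [hu, hs, if_true, Pi.zero_apply, norm_zero]
      rw [hsq2]; simp
    rw [h0]
    congr 1
    refine Finset.prod_congr rfl (fun j _ => ?_)
    have hj : (j.succ : Fin (r + 1)) ≠ 0 := Fin.succ_ne_zero j
    simp only [hu, hs, hj, if_false, norm_neg]
    rw [tau]; simp
  -- second product
  have hp2 : ∏ i, ((∫ z, ‖v i z‖ ^ 2) + t i ^ 2) ≤ (3 * D * (1 + b * J0 : ℝ)) ^ (r + 1) := by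
    have hone : ∀ i, (∫ z, ‖v i z‖ ^ 2) + t i ^ 2 ≤ 3 * D * (1 + b * J0 : ℝ) := by
      intro i
      have e1 : ∫ z, ‖v i z‖ ^ 2 = (1 / (2 * Real.pi)) ^ 2 * ∫ z, ‖Y i z‖ ^ 2 := by
        rw [← integral_const_mul]
        refine integral_congr_ae (Eventually.of_forall (fun z => ?_))
        simp only [hv, norm_mul, mul_pow, Complex.norm_real, Real.norm_eq_abs, sq_abs]
      have e2 : (1 / (2 * Real.pi)) ^ 2 ≤ (1 : ℝ) / 36 := by
        have hpi := Real.pi_gt_three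
        rw [div_pow, one_pow]
        apply one_div_le_one_div_of_le (by norm_num)
        nlinarith
      have e3 : t i ^ 2 ≤ D := by
        simp only [ht]
        rw [div_pow, hsq2, div_le_iff₀ hD0]
        have : ((g i).natDegree : ℝ) ≤ D := by exact_mod_cast hdeg i
        have h0 : (0 : ℝ) ≤ ((g i).natDegree : ℝ) := Nat.cast_nonneg _
        nlinarith
      have e4 : ((g i).natDegree : ℝ) ≤ D := by exact_mod_cast hdeg i
      have e5 : (M : ℝ) = 1 + b * J0 := by rw [hMdef]; push_cast; ring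
      have e6 : (0 : ℝ) ≤ ∫ z, ‖Y i z‖ ^ 2 := integral_nonneg (fun z => by positivity)
      have e7 := (hYe i).2
      have e8 : (1 : ℝ) ≤ 1 + b * J0 := by
        have : (0 : ℝ) ≤ (b : ℝ) * J0 := by positivity
        linarith
      rw [e5] at e7
      have e9 : 44 * ((g i).natDegree : ℝ) * (1 + b * J0) ≤ 44 * D * (1 + b * J0) := by
        have : (0 : ℝ) ≤ 1 + b * J0 := by linarith
        nlinarith
      have e10 : (1 / (2 * Real.pi)) ^ 2 * ∫ z, ‖Y i z‖ ^ 2 ≤ (1 : ℝ) / 36 * (44 * D * (1 + b * J0)) :=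
        mul_le_mul e2 (e7.trans e9) e6 (by norm_num)
      have e11 : (D : ℝ) ≤ D * (1 + b * J0) := by nlinarith
      rw [e1]
      have e12 : (0 : ℝ) ≤ D * (1 + b * J0) := by positivity
      linarith
    calc ∏ i, ((∫ z, ‖v i z‖ ^ 2) + t i ^ 2) ≤ ∏ _i : Fin (r + 1), (3 * D * (1 + b * J0 : ℝ)) := by
          refine Finset.prod_le_prod (fun i _ => ?_) (fun i _ => hone i)
          have : (0 : ℝ) ≤ ∫ z, ‖v i z‖ ^ 2 := integral_nonneg (fun z => by positivity)
          positivity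
      _ = (3 * D * (1 + b * J0 : ℝ)) ^ (r + 1) := by simp
  have htau : ∀ k, 0 ≤ tau b k := fun k => integral_nonneg (fun z => by positivity)
  refine ⟨fun j => κ j.succ, ?_, ?_, ?_⟩
  · intro j j' hjj
    exact Fin.succ_injective _ (hκmono.injective hjj)
  · intro j
    exact ⟨hκpos _ (Fin.succ_ne_zero j), hκN _⟩
  · have h1 : (∏ j : Fin r, (κ j.succ : ℝ)) ^ 2 ≤ (Matrix.of fun (j i : Fin (r + 1)) =>
        ∑ z ∈ rt (g i), (aeval z (P j)).re).det ^ 2 := by
      rw [← sq_abs (Matrix.of fun (j i : Fin (r + 1)) => ∑ z ∈ rt (g i), (aeval z (P j)).re).det]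
      exact pow_le_pow_left₀ (Finset.prod_nonneg (fun j _ => Nat.cast_nonneg _)) hdet 2
    refine h1.trans (key.trans ?_)
    rw [hp1]
    refine mul_le_mul_of_nonneg_left hp2 ?_
    exact mul_nonneg hD0.le (Finset.prod_nonneg (fun j _ => htau _))

end Pool.Agent.GLE.H21
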