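import Pool.Agent.GLE.StmtsA
import Pool.Agent.GLE.StmtsC

/-! Squad GLE: the version for all postcritically finite parameters. -/

namespace Pool.Agent.GLE.H21

open Polynomial

theorem av_eq_iter (c : ℂ) (n : ℕ) : (fun z : ℂ => z ^ 2 + c)^[n] 0 = av n c := by
  induction n with
  | zero => rfl
  | succ n ih => rw [Function.iterate_succ_apply', ih]; rfl

theorem av_map {R S : Type} [CommRing R] [CommRing S] (φ : R →+* S) (m : ℕ) (c : R) :
    φ (av m c) = av m (φ c) := by
  induction m with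
  | zero => simp [av]
  | succ m ih => simp [av, ih]

/-- norm growth: once the orbit is beyond `max 2 ‖c‖` it tends to infinity -/
theorem growth (c : ℂ) (x : ℝ) (j : ℕ) (hx2 : 2 < x) (hxc : ‖c‖ ≤ x) (hj : x ≤ ‖av j c‖) (k : ℕ) :
    x * (x - 1) ^ k ≤ ‖av (j + k) c‖ := by
  induction k with
  | zero => simpa using hj
  | succ k ih =>
    have h1 : (1 : ℝ) ≤ (x - 1) ^ k := one_le_pow₀ (by linarith)
    have h2 : x ≤ ‖av (j + k) c‖ := by nlinarith
    have h3 : ‖av (j + k) c‖ ^ 2 - ‖c‖ ≤ ‖av (j + (k + 1)) c‖ := by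
      have : av (j + (k + 1)) c = av (j + k) c ^ 2 - (-c) := by
        rw [sub_neg_eq_add]; rfl
      rw [this]
      have h4 := norm_sub_norm_le (av (j + k) c ^ 2) (-c)
      rw [norm_pow, norm_neg] at h4
      exact h4
    have h5 : ‖av (j + k) c‖ * (x - 1) ≤ ‖av (j + k) c‖ ^ 2 - ‖c‖ := by nlinarith
    have h6 : x * (x - 1) ^ (k + 1) ≤ ‖av (j + k) c‖ * (x - 1) := by
      rw [pow_succ]
      have : 0 < x - 1 := by linarith
      nlinarith
    linarith

theorem inM_of_bdd (c : ℂ) (B : ℝ) (hB : ∀ n, ‖av n c‖ ≤ B) : inM c := by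
  have key : ∀ (x : ℝ) (j : ℕ), 2 < x → ‖c‖ ≤ x → x ≤ ‖av j c‖ → False := by
    intro x j hx2 hxc hj
    have h1 : Filter.Tendsto (fun k : ℕ => (x - 1) ^ k) Filter.atTop Filter.atTop :=
      tendsto_pow_atTop_atTop_of_one_lt (by linarith)
    obtain ⟨k, hk⟩ := (h1.eventually (Filter.eventually_gt_atTop B)).exists
    have h2 := growth c x j hx2 hxc hj k
    have h3 := hB (j + k)
    have h4 : (0 : ℝ) < (x - 1) ^ k := by
      have : 0 < x - 1 := by linarith
      positivity
    nlinarith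
  intro j
  by_contra hcon
  push Not at hcon
  rcases le_or_gt ‖c‖ 2 with hc | hc
  · exact key ‖av j c‖ j hcon (by linarith) le_rfl
  · have h1 : av 1 c = c := by simp [av]
    exact key ‖c‖ 1 hc le_rfl (by rw [h1])

theorem av_periodic (z : ℂ) (i j : ℕ) (hij : av j z = av i z) (s : ℕ) :
    av (j + s) z = av (i + s) z := by
  induction s with
  | zero => exact hij
  | succ s ih =>
    have h1 : av (j + (s + 1)) z = av (j + s) z ^ 2 + z := rfl
    have h2 : av (i + (s + 1)) z = av (i + s) z ^ 2 + z := rfl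
    rw [h1, h2, ih]

theorem inM_of_preper (z : ℂ) (i j : ℕ) (hlt : i < j) (hij : av j z = av i z) : inM z := by
  have hper := av_periodic z i j hij
  have hbound : ∀ n, ‖av n z‖ ≤ ∑ l ∈ Finset.range j, ‖av l z‖ := by
    intro n
    induction n using Nat.strong_induction_on with
    | _ n ih =>
      rcases lt_or_ge n j with h | h
      · exact Finset.single_le_sum (f := fun l => ‖av l z‖) (fun l _ => norm_nonneg _)
          (Finset.mem_range.mpr h)
      · have h1 : av n z = av (i + (n - j)) z := by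
          have := hper (n - j)
          rwa [show j + (n - j) = n by omega] at this
        rw [h1]
        exact ih _ (by omega)
  exact inM_of_bdd z _ hbound

/-- a parameter with finite critical orbit -/
theorem preper_of_finite (c : ℂ)
    (h : (Set.range (fun n : ℕ => (fun z : ℂ => z ^ 2 + c)^[n] 0)).Finite) :
    ∃ i j, i < j ∧ av j c = av i c := by
  have h1 : ¬ Function.Injective (fun n : ℕ => (fun z : ℂ => z ^ 2 + c)^[n] 0) := by
    intro hinj
    exact (Set.infinite_range_of_injective hinj) h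
  rw [Function.Injective] at h1
  push Not at h1
  obtain ⟨a, b, hab, hne⟩ := h1
  simp only [av_eq_iter] at hab
  rcases lt_or_gt_of_ne hne with h2 | h2
  · exact ⟨a, b, h2, hab.symm⟩
  · exact ⟨b, a, h2, hab⟩

theorem av_poly (m : ℕ) (hm : 1 ≤ m) : (av m (X : ℤ[X])).Monic ∧
    (av m (X : ℤ[X])).natDegree = 2 ^ (m - 1) := by
  induction m with
  | zero => omega
  | succ m ih =>
    rcases Nat.eq_zero_or_pos m with h0 | h0
    · subst h0
      have : av 1 (X : ℤ[X]) = X := by simp [av]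
      rw [this]
      exact ⟨monic_X, by simp⟩
    · obtain ⟨h1, h2⟩ := ih h0
      have h3 : av (m + 1) (X : ℤ[X]) = av m (X : ℤ[X]) ^ 2 + X := rfl
      have h4 : (av m (X : ℤ[X]) ^ 2).natDegree = 2 ^ m := by
        rw [natDegree_pow, h2]
        have : 2 ^ m = 2 * 2 ^ (m - 1) := by
          rw [← pow_succ']; congr 1; omega
        omega
      have h5 : 1 < 2 ^ m := Nat.one_lt_two_pow (by omega)
      have h6 : (X : ℤ[X]).degree < (av m (X : ℤ[X]) ^ 2).degree := by
        rw [degree_eq_natDegree (h1.pow 2).ne_zero, h4, degree_X]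
        exact_mod_cast h5
      refine ⟨?_, ?_⟩
      · rw [h3]; exact (h1.pow 2).add_of_left h6
      · rw [h3, natDegree_add_eq_left_of_degree_lt h6, h4]; rfl

theorem isIntegral_of_preper (c : ℂ) (i j : ℕ) (hlt : i < j) (hij : av j c = av i c) :
    IsIntegral ℤ c := by
  obtain ⟨h1, h2⟩ := av_poly j (by omega)
  have h3 : (av i (X : ℤ[X])).degree < (av j (X : ℤ[X])).degree := by
    rcases Nat.eq_zero_or_pos i with h0 | h0
    · subst h0
      have : av 0 (X : ℤ[X]) = 0 := rfl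
      rw [this, degree_zero]
      exact bot_lt_iff_ne_bot.mpr (degree_ne_bot.mpr h1.ne_zero)
    · obtain ⟨h4, h5⟩ := av_poly i h0
      rw [degree_eq_natDegree h4.ne_zero, degree_eq_natDegree h1.ne_zero, h2, h5]
      exact_mod_cast Nat.pow_lt_pow_right (by norm_num) (by omega)
  refine ⟨av j (X : ℤ[X]) - av i (X : ℤ[X]), h1.sub_of_left h3, ?_⟩
  rw [← aeval_def, map_sub]
  have e : ∀ m, aeval c (av m (X : ℤ[X])) = av m c := by
    intro m
    have := av_map (aeval c : ℤ[X] →ₐ[ℤ] ℂ).toRingHom m X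
    simpa using this
  rw [e, e, hij, sub_self]

/-- all complex roots of the minimal polynomial over `ℤ` of a preperiodic parameter are in `M` -/
theorem minpoly_good (c : ℂ) (i j : ℕ) (hlt : i < j) (hij : av j c = av i c) :
    (minpoly ℤ c).Monic ∧ Irreducible (minpoly ℤ c) ∧
      minpoly ℚ c = (minpoly ℤ c).map (Int.castRingHom ℚ) ∧
      ∀ z ∈ rt (minpoly ℤ c), inM z := by
  have hint := isIntegral_of_preper c i j hlt hij
  refine ⟨minpoly.monic hint, minpoly.irreducible hint, ?_, ?_⟩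
  · have := minpoly.isIntegrallyClosed_eq_field_fractions' ℚ hint
    simpa using this
  · intro z hz
    have e : ∀ (w : ℂ) m, aeval w (av m (X : ℤ[X])) = av m w := by
      intro w m
      have := av_map (aeval w : ℤ[X] →ₐ[ℤ] ℂ).toRingHom m X
      simpa using this
    have hdvd : minpoly ℤ c ∣ av j (X : ℤ[X]) - av i (X : ℤ[X]) := by
      refine minpoly.isIntegrallyClosed_dvd hint ?_
      rw [map_sub, e, e, hij, sub_self]
    have hz0 : aeval z (minpoly ℤ c) = 0 := by
      rw [rt, Multiset.mem_toFinset, mem_roots'] at hz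
      have h2 := hz.2
      rw [IsRoot.def, eval_map] at h2
      rw [aeval_def]
      exact h2
    obtain ⟨q, hq⟩ := hdvd
    have h1 : aeval z (av j (X : ℤ[X]) - av i (X : ℤ[X])) = 0 := by
      rw [hq, map_mul, hz0, zero_mul]
    rw [map_sub, e, e, sub_eq_zero] at h1
    exact inM_of_preper z i j hlt h1

/-- postcritically finite parameters of bounded degree -/
theorem pcf (hFIN : FinStmt) (ε : ℝ) (hε : 0 < ε) : ∃ C : ℝ, 0 < C ∧ ∀ D : ℕ, 1 ≤ D →
    ({p : ℚ[X] | ∃ c : ℂ, (Set.range (fun n : ℕ => (fun z : ℂ => z ^ 2 + c)^[n] 0)).Finite ∧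
        p = minpoly ℚ c ∧ p.natDegree ≤ D}.Finite ∧
      ({p : ℚ[X] | ∃ c : ℂ, (Set.range (fun n : ℕ => (fun z : ℂ => z ^ 2 + c)^[n] 0)).Finite ∧
        p = minpoly ℚ c ∧ p.natDegree ≤ D}.ncard : ℝ) ≤ C * (D : ℝ) ^ (1 + ε)) ∧
    ({c : ℂ | (Set.range (fun n : ℕ => (fun z : ℂ => z ^ 2 + c)^[n] 0)).Finite ∧
        (minpoly ℚ c).natDegree ≤ D}.Finite ∧
      ({c : ℂ | (Set.range (fun n : ℕ => (fun z : ℂ => z ^ 2 + c)^[n] 0)).Finite ∧
        (minpoly ℚ c).natDegree ≤ D}.ncard : ℝ) ≤ C * (D : ℝ) ^ (2 + ε)) := by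
  obtain ⟨C, hC, hF⟩ := hFIN ε hε
  refine ⟨C, hC, fun D hD => ?_⟩
  obtain ⟨hfin, hcard⟩ := hF D hD
  set G : Set ℤ[X] := {g : ℤ[X] | g.Monic ∧ Irreducible g ∧ g.natDegree ≤ D ∧ ∀ z ∈ rt g, inM z}
    with hG
  set A : Set ℚ[X] := {p : ℚ[X] | ∃ c : ℂ,
    (Set.range (fun n : ℕ => (fun z : ℂ => z ^ 2 + c)^[n] 0)).Finite ∧
        p = minpoly ℚ c ∧ p.natDegree ≤ D} with hA
  have hsub : A ⊆ (fun g : ℤ[X] => g.map (Int.castRingHom ℚ)) '' G := by
    rintro p ⟨c, hc, hp, hpD⟩
    obtain ⟨i, j, hlt, hij⟩ := preper_of_finite c hc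
    obtain ⟨h1, h2, h3, h4⟩ := minpoly_good c i j hlt hij
    refine ⟨minpoly ℤ c, ⟨h1, h2, ?_, h4⟩, ?_⟩
    · rw [hp, h3, h1.natDegree_map] at hpD
      exact hpD
    · rw [hp, h3]
  have hAfin : A.Finite := (hfin.image _).subset hsub
  have hAcard : (A.ncard : ℝ) ≤ C * (D : ℝ) ^ (1 + ε) := by
    have h1 : A.ncard ≤ G.ncard :=
      (Set.ncard_le_ncard hsub (hfin.image _)).trans (Set.ncard_image_le hfin)
    exact le_trans (by exact_mod_cast h1) hcard
  refine ⟨⟨hAfin, hAcard⟩, ?_⟩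
  set Bs : Set ℂ := {c : ℂ | (Set.range (fun n : ℕ => (fun z : ℂ => z ^ 2 + c)^[n] 0)).Finite ∧
        (minpoly ℚ c).natDegree ≤ D} with hBs
  have hBsub : Bs ⊆ ((hAfin.toFinset.biUnion
      (fun p => (p.map (algebraMap ℚ ℂ)).roots.toFinset) : Finset ℂ) : Set ℂ) := by
    rintro c ⟨hc, hcD⟩
    obtain ⟨i, j, hlt, hij⟩ := preper_of_finite c hc
    have hint := isIntegral_of_preper c i j hlt hij
    have hint2 : IsIntegral ℚ c := hint.tower_top
    rw [Finset.mem_coe, Finset.mem_biUnion]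
    refine ⟨minpoly ℚ c, ?_, ?_⟩
    · rw [Set.Finite.mem_toFinset]
      exact ⟨c, hc, rfl, hcD⟩
    · rw [Multiset.mem_toFinset, mem_roots ((Polynomial.map_ne_zero (minpoly.ne_zero hint2))),
        IsRoot.def, eval_map, ← aeval_def]
      exact minpoly.aeval ℚ c
  refine ⟨(Finset.finite_toSet _).subset hBsub, ?_⟩
  have h1 : Bs.ncard ≤ (hAfin.toFinset.biUnion
      (fun p => (p.map (algebraMap ℚ ℂ)).roots.toFinset)).card := by
    rw [← Set.ncard_coe_finset]
    exact Set.ncard_le_ncard hBsub (Finset.finite_toSet _)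
  have h2 : (hAfin.toFinset.biUnion
      (fun p => (p.map (algebraMap ℚ ℂ)).roots.toFinset)).card ≤ A.ncard * D := by
    refine (Finset.card_biUnion_le_card_mul _ _ D (fun p hp => ?_)).trans ?_
    · rw [Set.Finite.mem_toFinset] at hp
      obtain ⟨c, -, -, hpD⟩ := hp
      calc (p.map (algebraMap ℚ ℂ)).roots.toFinset.card
          ≤ Multiset.card (p.map (algebraMap ℚ ℂ)).roots := Multiset.toFinset_card_le _
        _ ≤ (p.map (algebraMap ℚ ℂ)).natDegree := card_roots' _
        _ = p.natDegree := natDegree_map _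
        _ ≤ D := hpD
    · rw [Set.ncard_eq_toFinset_card A hAfin]
  have hD0 : (0 : ℝ) < D := by exact_mod_cast hD
  calc (Bs.ncard : ℝ) ≤ (A.ncard : ℝ) * D := by exact_mod_cast h1.trans h2
    _ ≤ C * (D : ℝ) ^ (1 + ε) * D := by nlinarith
    _ = C * (D : ℝ) ^ (2 + ε) := by
        rw [mul_assoc]
        congr 1
        rw [show (2 : ℝ) + ε = (1 + ε) + 1 by ring, Real.rpow_add hD0 (1 + ε) 1, Real.rpow_one]

end Pool.Agent.GLE.H21
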